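import Mathlib

open MeasureTheory Metric Set Filter Topology Real
open scoped ENNReal NNReal

namespace Pool.Agent.Results.MP_48685d_an.Unrestricted

variable {n : ℕ}

/-- A regular cone: a nonempty open convex cone in `ℝⁿ` whose closure contains no straight line. -/
structure IsRegularCone (Γ : Set (Fin n → ℝ)) : Prop where
  nonempty : Γ.Nonempty
  isOpen : IsOpen Γ
  convex : Convex ℝ Γ
  smul_mem : ∀ y ∈ Γ, ∀ t : ℝ, 0 < t → t • y ∈ Γ
  no_line : ¬ ∃ a v : Fin n → ℝ, v ≠ 0 ∧ ∀ t : ℝ, a + t • v ∈ closure Γ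

/-- The point `x + i y` of `ℂⁿ`. -/
def pt (x y : Fin n → ℝ) : Fin n → ℂ := fun j => (x j : ℂ) + (y j : ℂ) * Complex.I

/-- The tube `T_Γ = {x + i y : x ∈ ℝⁿ, y ∈ Γ}`. -/
def tube (Γ : Set (Fin n → ℝ)) : Set (Fin n → ℂ) := {z | (fun j => (z j).im) ∈ Γ}

/-- The Hardy space `H^p(T_Γ)`: holomorphic functions on the tube with
`sup_{y ∈ Γ} ∫ |F(x+iy)|^p dx < ∞`. -/
def Hp (p : ℝ) (Γ : Set (Fin n → ℝ)) : Set ((Fin n → ℂ) → ℂ) :=
  {F | DifferentiableOn ℂ F (tube Γ) ∧ (⨆ y ∈ Γ, ∫⁻ x : Fin n → ℝ, ‖F (pt x y)‖ₑ ^ p) < ∞}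

/-- `Γ₀` is a proper regular subcone of `Γ`. -/
def IsProperSubcone (Γ₀ Γ : Set (Fin n → ℝ)) : Prop :=
  IsRegularCone Γ₀ ∧ Γ₀ ⊆ Γ ∧ closure Γ₀ ⊆ Γ ∪ {0}

/-- `f` is the boundary function of `F`: for every proper regular subcone `Γ₀` of `Γ` and almost
every `x`, `F (x + i y) → f x` as `y → 0` inside `Γ₀` (restricted limit). -/
def IsBoundaryFunction (Γ : Set (Fin n → ℝ)) (F : (Fin n → ℂ) → ℂ) (f : (Fin n → ℝ) → ℂ) : Prop :=
  ∀ Γ₀ : Set (Fin n → ℝ), IsProperSubcone Γ₀ Γ →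
    ∀ᵐ x : Fin n → ℝ, Tendsto (fun y => F (pt x y)) (𝓝[Γ₀] 0) (𝓝 (f x))



theorem submean_real {g : ℂ → ℂ} {R : ℝ} (hR : 0 < R)
    (hg : AnalyticOnNhd ℂ g (Metric.closedBall 0 R)) {q : ℝ} (hq : 0 < q) :
    ‖g 0‖ ^ q ≤ Real.circleAverage (fun z => ‖g z‖ ^ q) 0 R := by
  have habs : |R| = R := abs_of_pos hR
  have hcont : ContinuousOn g (sphere 0 R) := hg.continuousOn.mono sphere_subset_closedBall
  have hcont2 : ContinuousOn (fun z => ‖g z‖ ^ q) (sphere 0 R) :=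
    hcont.norm.rpow_const (fun x _ => Or.inr hq.le)
  have hint2 : CircleIntegrable (fun z => ‖g z‖ ^ q) 0 R := hcont2.circleIntegrable hR.le
  by_cases h0 : g 0 = 0
  · rw [h0, norm_zero, Real.zero_rpow hq.ne']
    apply circleAverage_nonneg_of_nonneg
    intro x _
    positivity
  have hg' : AnalyticOnNhd ℂ g (Metric.closedBall 0 |R|) := by rwa [habs]
  have J := hg'.circleAverage_log_norm hR.ne' h0
  have hlog : Real.log ‖g 0‖ ≤ Real.circleAverage (Real.log ‖g ·‖) 0 R := by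
    rw [J]
    have : 0 ≤ ∑ᶠ u, MeromorphicOn.divisor g (closedBall 0 |R|) u * Real.log (R * ‖0 - u‖⁻¹) := by
      apply finsum_nonneg
      intro u
      by_cases hu : u ∈ closedBall (0:ℂ) |R|
      · apply mul_nonneg
        · have := MeromorphicOn.AnalyticOnNhd.divisor_nonneg hg' u
          exact_mod_cast this
        · by_cases hu0 : u = 0
          · simp [hu0]
          apply Real.log_nonneg
          rw [zero_sub, norm_neg]
          rw [mem_closedBall, dist_zero_right, habs] at hu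
          have : 0 < ‖u‖ := norm_pos_iff.mpr hu0
          rw [← div_eq_mul_inv, le_div_iff₀ this]
          linarith
      · rw [Function.locallyFinsuppWithin.apply_eq_zero_of_notMem _ hu]
        simp
    linarith
  have hint1 : CircleIntegrable (Real.log ‖g ·‖) 0 R :=
    MeromorphicOn.circleIntegrable_log_norm (fun x hx =>
      (hg' x (sphere_subset_closedBall hx)).meromorphicAt)
  set a : ℝ := q * Real.log ‖g 0‖ with ha
  have hexp : ‖g 0‖ ^ q = Real.exp a := by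
    rw [Real.rpow_def_of_pos (norm_pos_iff.mpr h0), ha, mul_comm]
  let k : ℂ → ℝ := fun z => Real.exp a * (1 - a) + (Real.exp a * q) * Real.log ‖g z‖
  let k' : ℂ → ℝ := fun z => if g z = 0 then 0 else k z
  have hk : CircleIntegrable k 0 R := by
    apply CircleIntegrable.add
    · exact circleIntegrable_const _ _ _
    · exact hint1.const_smul (a := Real.exp a * q)
  have hcod : {z | g z ≠ 0} ∈ codiscreteWithin (closedBall (0:ℂ) |R|) := by
    have := hg'.preimage_zero_mem_codiscreteWithin (x := 0) h0 (by simp)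
      ⟨nonempty_closedBall.mpr (abs_nonneg R), (convex_closedBall (0:ℂ) |R|).isPreconnected⟩
    exact this
  have hkk : k =ᶠ[codiscreteWithin (sphere 0 |R|)] k' := by
    have : {z | g z ≠ 0} ∈ codiscreteWithin (sphere (0:ℂ) |R|) :=
      codiscreteWithin_mono sphere_subset_closedBall hcod
    filter_upwards [this] with z hz
    simp only [k']
    rw [if_neg hz]
  have hk' : CircleIntegrable k' 0 R := hk.congr_codiscreteWithin hkk
  have hle : Real.circleAverage k' 0 R ≤ Real.circleAverage (fun z => ‖g z‖ ^ q) 0 R := by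
    apply circleAverage_mono hk' hint2
    intro z _
    simp only [k']
    split_ifs with hz
    · positivity
    · simp only [k]
      rw [Real.rpow_def_of_pos (norm_pos_iff.mpr hz)]
      have h1 := Real.add_one_le_exp (q * Real.log ‖g z‖ - a)
      have h2 : Real.exp (Real.log ‖g z‖ * q) = Real.exp a * Real.exp (q * Real.log ‖g z‖ - a) := by
        rw [← Real.exp_add]
        congr 1
        ring
      rw [h2]
      have h3 := mul_le_mul_of_nonneg_left h1 (Real.exp_pos a).le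
      linarith
  have hval : Real.circleAverage k' 0 R =
      Real.exp a * (1 - a) + (Real.exp a * q) * Real.circleAverage (Real.log ‖g ·‖) 0 R := by
    rw [← circleAverage_congr_codiscreteWithin hkk hR.ne']
    have e1 : k = (fun _ => Real.exp a * (1 - a)) + (Real.exp a * q) • (Real.log ‖g ·‖) := by
      ext z
      simp [k]
    rw [e1, circleAverage_add (circleIntegrable_const _ _ _) (hint1.const_smul (a := Real.exp a * q))]
    rw [circleAverage_const, circleAverage_smul]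
    simp
  rw [hexp]
  have h5 : Real.exp a * q * Real.log ‖g 0‖ ≤
      (Real.exp a * q) * Real.circleAverage (Real.log ‖g ·‖) 0 R :=
    mul_le_mul_of_nonneg_left hlog (by positivity)
  have h6 : Real.exp a * q * Real.log ‖g 0‖ = Real.exp a * a := by
    rw [ha]; ring
  linarith

theorem submean_lintegral {g : ℂ → ℂ} {R : ℝ} (hR : 0 < R)
    (hg : AnalyticOnNhd ℂ g (Metric.closedBall 0 R)) {q : ℝ} (hq : 0 < q) :
    ‖g 0‖ₑ ^ q ≤ ENNReal.ofReal (2 * π)⁻¹ *
      ∫⁻ θ in Ioc 0 (2 * π), ‖g (circleMap 0 R θ)‖ₑ ^ q := by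
  have h := submean_real hR hg hq
  have hcont : ContinuousOn g (sphere 0 R) := hg.continuousOn.mono sphere_subset_closedBall
  have hcont2 : Continuous (fun θ => ‖g (circleMap 0 R θ)‖ ^ q) := by
    have : Continuous (fun θ => g (circleMap 0 R θ)) := by
      apply hcont.comp_continuous (continuous_circleMap 0 R)
      intro θ
      exact circleMap_mem_sphere 0 hR.le θ
    exact this.norm.rpow_const (fun _ => Or.inr hq.le)
  rw [Real.circleAverage_def, smul_eq_mul, intervalIntegral.integral_of_le (by positivity)] at h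
  have h2 := ENNReal.ofReal_le_ofReal h
  rw [ENNReal.ofReal_mul (by positivity), ofReal_integral_eq_lintegral_ofReal] at h2
  · have e : ∀ z : ℂ, ENNReal.ofReal (‖z‖ ^ q) = ‖z‖ₑ ^ q := by
      intro z
      rw [← ENNReal.ofReal_rpow_of_nonneg (norm_nonneg _) hq.le, ofReal_norm]
    simp only [e] at h2
    exact h2
  · exact (hcont2.integrableOn_Icc).mono_set Ioc_subset_Icc_self
  · exact Filter.Eventually.of_forall fun θ => by positivity



theorem limsup_lintegral_le' {α : Type*} [MeasurableSpace α] (ν : Measure α) [IsFiniteMeasure ν]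
    (w : ℕ → α → ℝ≥0∞) (w0 : α → ℝ≥0∞) (hw : ∀ k, Measurable (w k))
    (hlim : ∀ᵐ x ∂ν, Tendsto (fun k => w k x) atTop (𝓝 (w0 x)))
    (C : ℝ≥0∞) (hC : C ≠ ∞) (hb : ∀ k, ∫⁻ x, (w k x) ^ 2 ∂ν ≤ C) :
    limsup (fun k => ∫⁻ x, w k x ∂ν) atTop ≤ ∫⁻ x, w0 x ∂ν := by
  have key : ∀ N : ℕ, 1 ≤ N →
      limsup (fun k => ∫⁻ x, w k x ∂ν) atTop ≤ ∫⁻ x, w0 x ∂ν + C / (N : ℝ≥0∞) := by
    intro N hN
    have hN0 : (N : ℝ≥0∞) ≠ 0 := by
      simp; omega
    have h1 : ∀ k, ∫⁻ x, w k x ∂ν ≤ ∫⁻ x, min (w k x) N ∂ν + C / N := by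
      intro k
      have hpt : ∀ a : ℝ≥0∞, a ≤ min a N + a ^ 2 / N := by
        intro a
        rcases le_total a N with h | h
        · rw [min_eq_left h]
          exact le_self_add
        · refine le_trans ?_ le_add_self
          rw [ENNReal.le_div_iff_mul_le (Or.inl hN0) (Or.inl (ENNReal.natCast_ne_top N)), sq]
          gcongr
      calc ∫⁻ x, w k x ∂ν ≤ ∫⁻ x, (min (w k x) N + (w k x) ^ 2 / N) ∂ν :=
            lintegral_mono fun x => hpt _
        _ = ∫⁻ x, min (w k x) N ∂ν + ∫⁻ x, (w k x) ^ 2 / N ∂ν := by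
            rw [lintegral_add_left ((hw k).min measurable_const)]
        _ ≤ ∫⁻ x, min (w k x) N ∂ν + C / N := by
            gcongr
            simp only [div_eq_mul_inv]
            rw [lintegral_mul_const _ ((hw k).pow_const 2)]
            gcongr
            exact hb k
    have h2 : Tendsto (fun k => ∫⁻ x, min (w k x) N ∂ν) atTop (𝓝 (∫⁻ x, min (w0 x) N ∂ν)) := by
      apply tendsto_lintegral_of_dominated_convergence (fun _ => (N : ℝ≥0∞))
      · exact fun k => (hw k).min measurable_const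
      · exact fun k => Eventually.of_forall fun x => min_le_right _ _
      · rw [lintegral_const]
        exact ENNReal.mul_ne_top (ENNReal.natCast_ne_top N) (measure_ne_top ν _)
      · filter_upwards [hlim] with x hx
        exact hx.min tendsto_const_nhds
    have h3 : Tendsto (fun k => ∫⁻ x, min (w k x) N ∂ν + C / N) atTop
        (𝓝 (∫⁻ x, min (w0 x) N ∂ν + C / N)) := h2.add tendsto_const_nhds
    calc limsup (fun k => ∫⁻ x, w k x ∂ν) atTop
        ≤ limsup (fun k => ∫⁻ x, min (w k x) N ∂ν + C / N) atTop :=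
          limsup_le_limsup (Eventually.of_forall h1)
      _ = ∫⁻ x, min (w0 x) N ∂ν + C / N := h3.limsup_eq
      _ ≤ ∫⁻ x, w0 x ∂ν + C / N := by
          gcongr
          exact min_le_left _ _
  have h4 : Tendsto (fun N : ℕ => ∫⁻ x, w0 x ∂ν + C / (N : ℝ≥0∞)) atTop
      (𝓝 (∫⁻ x, w0 x ∂ν + 0)) := by
    apply Tendsto.add tendsto_const_nhds
    have := ENNReal.Tendsto.const_div ENNReal.tendsto_nat_nhds_top (Or.inr hC)
    simpa using this
  rw [add_zero] at h4
  apply ge_of_tendsto h4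
  filter_upwards [eventually_ge_atTop 1] with N hN
  exact key N hN





theorem pt_im (x y : Fin n → ℝ) : (fun j => (pt x y j).im) = y := by
  ext j
  simp [pt]

theorem pt_mem {Γ : Set (Fin n → ℝ)} {x y : Fin n → ℝ} (hy : y ∈ Γ) : pt x y ∈ tube Γ := by
  show (fun j => (pt x y j).im) ∈ Γ
  rwa [pt_im]

theorem continuous_pt : Continuous (fun p : (Fin n → ℝ) × (Fin n → ℝ) => pt p.1 p.2) := by
  unfold pt
  fun_prop

theorem isOpen_tube {Γ : Set (Fin n → ℝ)} (h : IsOpen Γ) : IsOpen (tube Γ) := by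
  apply h.preimage
  fun_prop

/-- Cayley map from the disc to the upper half plane. -/
noncomputable def cay (w : ℂ) : ℂ := Complex.I * (1 + w) / (1 - w)

theorem cay_im (w : ℂ) (hw : w ≠ 1) : (cay w).im = (1 - Complex.normSq w) / Complex.normSq (1 - w) := by
  have h : (1 - w) ≠ 0 := sub_ne_zero.mpr (Ne.symm hw)
  have h' : Complex.normSq (1 - w) ≠ 0 := by
    simpa [Complex.normSq_eq_zero] using h
  rw [cay, Complex.div_im]
  rw [← sub_div]
  congr 1
  simp [Complex.normSq_apply, Complex.mul_re, Complex.mul_im]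
  ring

theorem cay_im_pos {w : ℂ} (hw : ‖w‖ < 1) : 0 < (cay w).im := by
  have hw1 : w ≠ 1 := by
    rintro rfl
    simp at hw
  rw [cay_im w hw1]
  have h : (1 - w) ≠ 0 := sub_ne_zero.mpr (Ne.symm hw1)
  apply div_pos
  · rw [Complex.normSq_eq_norm_sq]
    have := norm_nonneg w
    nlinarith
  · exact Complex.normSq_pos.mpr h

theorem cay_im_zero {w : ℂ} (hw : ‖w‖ = 1) (hw1 : w ≠ 1) : (cay w).im = 0 := by
  rw [cay_im w hw1, Complex.normSq_eq_norm_sq, hw]
  simp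

theorem cay_zero : cay 0 = Complex.I := by simp [cay]

/-- The point `x + i y₀ + ζ y₁`. -/
noncomputable def Z (y0 y1 : Fin n → ℝ) (x : Fin n → ℝ) (ζ : ℂ) : Fin n → ℂ :=
  fun j => (x j : ℂ) + (y0 j : ℂ) * Complex.I + ζ * (y1 j : ℂ)

theorem Z_eq (y0 y1 x : Fin n → ℝ) (ζ : ℂ) :
    Z y0 y1 x ζ = pt (x + ζ.re • y1) (y0 + ζ.im • y1) := by
  ext j
  simp only [Z, pt, Pi.add_apply, Pi.smul_apply, smul_eq_mul]
  apply Complex.ext <;> simp

theorem cone_mem {Γ : Set (Fin n → ℝ)} (hconv : Convex ℝ Γ)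
    (hcone : ∀ y ∈ Γ, ∀ t : ℝ, 0 < t → t • y ∈ Γ) {y0 y1 : Fin n → ℝ}
    (h0 : y0 ∈ Γ) (h1 : y1 ∈ Γ) {t : ℝ} (ht : 0 ≤ t) : y0 + t • y1 ∈ Γ := by
  rcases ht.eq_or_lt with rfl | ht
  · simpa using h0
  have h2 : (2⁻¹ : ℝ) • ((2:ℝ) • y0) + (2⁻¹ : ℝ) • ((2:ℝ) • (t • y1)) ∈ Γ := by
    apply hconv (hcone _ h0 2 (by norm_num)) (hcone _ (hcone _ h1 t ht) 2 (by norm_num))
      (by norm_num) (by norm_num) (by norm_num)
  simpa [smul_smul] using h2


/-- The integrand obtained from `F` along a complex line is analytic in the disc. -/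
theorem analytic_line {Γ : Set (Fin n → ℝ)} (hΓo : IsOpen Γ) (hconv : Convex ℝ Γ)
    (hcone : ∀ y ∈ Γ, ∀ t : ℝ, 0 < t → t • y ∈ Γ) {F : (Fin n → ℂ) → ℂ}
    (hF : DifferentiableOn ℂ F (tube Γ)) {y0 y1 : Fin n → ℝ} (h0 : y0 ∈ Γ) (h1 : y1 ∈ Γ)
    (x : Fin n → ℝ) :
    AnalyticOnNhd ℂ (fun w => F (Z y0 y1 x (cay w))) (ball 0 1) := by
  apply DifferentiableOn.analyticOnNhd _ isOpen_ball
  intro w hw
  rw [mem_ball_zero_iff] at hw
  have hw1 : 1 - w ≠ 0 := by
    intro h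
    have : w = 1 := (sub_eq_zero.mp h).symm
    rw [this] at hw
    simp at hw
  have hmem : Z y0 y1 x (cay w) ∈ tube Γ := by
    rw [Z_eq]
    exact pt_mem (cone_mem hconv hcone h0 h1 (cay_im_pos hw).le)
  have hd1 : DifferentiableAt ℂ F (Z y0 y1 x (cay w)) :=
    (hF _ hmem).differentiableAt ((isOpen_tube hΓo).mem_nhds hmem)
  have hd2 : DifferentiableAt ℂ (fun w => Z y0 y1 x (cay w)) w := by
    rw [differentiableAt_pi]
    intro j
    simp only [Z, cay]
    fun_prop (disch := exact hw1)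
  exact (hd1.comp w hd2).differentiableWithinAt

theorem measurable_slice {Γ : Set (Fin n → ℝ)} {F : (Fin n → ℂ) → ℂ}
    (hF : ContinuousOn F (tube Γ)) {y : Fin n → ℝ} (hy : y ∈ Γ) :
    Continuous (fun x => F (pt x y)) :=
  hF.comp_continuous (continuous_pt.comp (by fun_prop : Continuous fun x => (x, y)))
    (fun _ => pt_mem hy)

/-- Sub-mean value inequality on a circle of radius `r < 1` in the disc model. -/
theorem ineq_r {Γ : Set (Fin n → ℝ)} (hΓo : IsOpen Γ) (hconv : Convex ℝ Γ)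
    (hcone : ∀ y ∈ Γ, ∀ t : ℝ, 0 < t → t • y ∈ Γ) {F : (Fin n → ℂ) → ℂ}
    (hF : DifferentiableOn ℂ F (tube Γ)) {y0 y1 : Fin n → ℝ} (h0 : y0 ∈ Γ) (h1 : y1 ∈ Γ)
    {q : ℝ} (hq : 0 < q) (G : (Fin n → ℝ) → ℝ≥0∞) (hG : Measurable G) {r : ℝ} (hr0 : 0 < r)
    (hr1 : r < 1) :
    ∫⁻ x, G x * ‖F (pt x (y0 + y1))‖ₑ ^ q ≤ ENNReal.ofReal (2 * π)⁻¹ *
      ∫⁻ θ in Ioc 0 (2 * π), ∫⁻ x, G x * ‖F (Z y0 y1 x (cay (circleMap 0 r θ)))‖ₑ ^ q := by
  have hcont : Continuous (fun p : ℝ × (Fin n → ℝ) => F (Z y0 y1 p.2 (cay (circleMap 0 r p.1)))) := by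
    have hne : ∀ θ : ℝ, 1 - circleMap 0 r θ ≠ 0 := by
      intro θ h
      have h2 : circleMap 0 r θ = 1 := (sub_eq_zero.mp h).symm
      have h3 : ‖circleMap 0 r θ‖ = |r| := by simp
      rw [h2] at h3
      simp at h3
      rw [abs_of_pos hr0] at h3
      linarith
    apply hF.continuousOn.comp_continuous
    · apply continuous_pi
      intro j
      simp only [Z, cay]
      have : Continuous (fun θ : ℝ => circleMap 0 r θ) := continuous_circleMap 0 r
      have h5 : Continuous (fun p : ℝ × (Fin n → ℝ) =>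
          Complex.I * (1 + circleMap 0 r p.1) / (1 - circleMap 0 r p.1)) := by
        apply Continuous.div
        · fun_prop
        · fun_prop
        · exact fun p => hne p.1
      fun_prop
    · intro p
      rw [Z_eq]
      apply pt_mem (cone_mem hconv hcone h0 h1 (cay_im_pos _).le)
      simp [abs_of_pos hr0, hr1]
  have hpt : ∀ x : Fin n → ℝ, ‖F (pt x (y0 + y1))‖ₑ ^ q ≤ ENNReal.ofReal (2 * π)⁻¹ *
      ∫⁻ θ in Ioc 0 (2 * π), ‖F (Z y0 y1 x (cay (circleMap 0 r θ)))‖ₑ ^ q := by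
    intro x
    have h := submean_lintegral hr0
      ((analytic_line hΓo hconv hcone hF h0 h1 x).mono (closedBall_subset_ball hr1)) hq
    have e : Z y0 y1 x (cay 0) = pt x (y0 + y1) := by
      rw [cay_zero, Z_eq]
      simp
    simp only [e] at h
    exact h
  have hmeas : Measurable (fun p : ℝ × (Fin n → ℝ) =>
      ‖F (Z y0 y1 p.2 (cay (circleMap 0 r p.1)))‖ₑ ^ q) :=
    hcont.measurable.enorm.pow_const q
  calc ∫⁻ x, G x * ‖F (pt x (y0 + y1))‖ₑ ^ q
      ≤ ∫⁻ x, G x * (ENNReal.ofReal (2 * π)⁻¹ *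
          ∫⁻ θ in Ioc 0 (2 * π), ‖F (Z y0 y1 x (cay (circleMap 0 r θ)))‖ₑ ^ q) := by
        apply lintegral_mono
        intro x
        exact mul_le_mul_right (hpt x) _
    _ = ENNReal.ofReal (2 * π)⁻¹ * ∫⁻ x, ∫⁻ θ in Ioc 0 (2 * π),
          G x * ‖F (Z y0 y1 x (cay (circleMap 0 r θ)))‖ₑ ^ q := by
        rw [← lintegral_const_mul']
        · apply lintegral_congr
          intro x
          have hm : Measurable (fun θ : ℝ => ‖F (Z y0 y1 x (cay (circleMap 0 r θ)))‖ₑ ^ q) :=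
            hmeas.comp (g := fun p : ℝ × (Fin n → ℝ) =>
              ‖F (Z y0 y1 p.2 (cay (circleMap 0 r p.1)))‖ₑ ^ q) (f := fun θ : ℝ => (θ, x))
              (measurable_id.prodMk measurable_const)
          rw [lintegral_const_mul _ hm]
          ring
        · exact ENNReal.ofReal_ne_top
    _ = _ := by
        congr 1
        have hm : Measurable (fun p : (Fin n → ℝ) × ℝ =>
            ‖F (Z y0 y1 p.1 (cay (circleMap 0 r p.2)))‖ₑ ^ q) :=
          hmeas.comp (g := fun p : ℝ × (Fin n → ℝ) =>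
              ‖F (Z y0 y1 p.2 (cay (circleMap 0 r p.1)))‖ₑ ^ q)
              (f := fun p : (Fin n → ℝ) × ℝ => (p.2, p.1)) measurable_swap
        have hm2 : Measurable (fun p : (Fin n → ℝ) × ℝ => G p.1 *
            ‖F (Z y0 y1 p.1 (cay (circleMap 0 r p.2)))‖ₑ ^ q) :=
          (hG.comp measurable_fst).mul hm
        exact lintegral_lintegral_swap (f := fun x θ => G x *
            ‖F (Z y0 y1 x (cay (circleMap 0 r θ)))‖ₑ ^ q) hm2.aemeasurable


theorem le_one_add_sq (a : ℝ≥0∞) : a ≤ 1 + a ^ 2 := by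
  rcases le_total a 1 with h | h
  · exact h.trans le_self_add
  · refine le_trans ?_ le_add_self
    calc a = a * 1 := (mul_one a).symm
      _ ≤ a * a := by gcongr
      _ = a ^ 2 := (sq a).symm

/-- Boundary values of the Cayley map. -/
noncomputable def tau (θ : ℝ) : ℝ := (cay (circleMap 0 1 θ)).re

theorem circleMap_ne_one {θ : ℝ} (h : θ ∈ Ioo 0 (2 * π)) : circleMap 0 1 θ ≠ 1 := by
  intro h1
  simp only [circleMap, zero_add, Complex.ofReal_one, one_mul] at h1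
  rw [Complex.exp_eq_one_iff] at h1
  obtain ⟨m, hm⟩ := h1
  have h2 : (θ : ℂ) = (m * (2 * π) : ℝ) := by
    have : (θ : ℂ) * Complex.I = ((m * (2 * π) : ℝ) : ℂ) * Complex.I := by
      rw [hm]; push_cast; ring
    exact mul_right_cancel₀ Complex.I_ne_zero this
  have h3 : θ = m * (2 * π) := by exact_mod_cast h2
  have hpi := Real.pi_pos
  rw [h3] at h
  obtain ⟨ha, hb⟩ := h
  have h4 : (0:ℝ) < m := by
    by_contra hneg
    push Not at hneg
    nlinarith
  have h5 : (m:ℝ) < 1 := by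
    by_contra hneg
    push Not at hneg
    nlinarith
  have h6 : (0:ℤ) < m := by exact_mod_cast h4
  have h7 : m < (1:ℤ) := by exact_mod_cast h5
  omega

theorem ineq_one {Γ : Set (Fin n → ℝ)} (hΓo : IsOpen Γ) (hconv : Convex ℝ Γ)
    (hcone : ∀ y ∈ Γ, ∀ t : ℝ, 0 < t → t • y ∈ Γ) {F : (Fin n → ℂ) → ℂ}
    (hF : DifferentiableOn ℂ F (tube Γ)) {y0 y1 : Fin n → ℝ} (h0 : y0 ∈ Γ) (h1 : y1 ∈ Γ)
    {q : ℝ} (hq : 0 < q) (G : (Fin n → ℝ) → ℝ≥0∞) (hG : Measurable G)
    (N : ℝ≥0∞) (hN : N ≠ ∞) (hGN : ∀ x, G x ≤ N) (hGfin : ∫⁻ x, G x ≠ ∞)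
    (C : ℝ≥0∞) (hC : C ≠ ∞) (hb : ∀ y ∈ Γ, ∫⁻ x, (‖F (pt x y)‖ₑ ^ q) ^ 2 ≤ C) :
    ∫⁻ x, G x * ‖F (pt x (y0 + y1))‖ₑ ^ q ≤ ENNReal.ofReal (2 * π)⁻¹ *
      ∫⁻ θ in Ioc 0 (2 * π), ∫⁻ x, G x * ‖F (pt (x + tau θ • y1) y0)‖ₑ ^ q := by
  have hFc : ContinuousOn F (tube Γ) := hF.continuousOn
  set c : ℝ≥0∞ := ENNReal.ofReal (2 * π)⁻¹ with hc
  have hc0 : c ≠ 0 := by
    rw [hc, Ne, ENNReal.ofReal_eq_zero, not_le]
    positivity
  have hctop : c ≠ ∞ := ENNReal.ofReal_ne_top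
  let r : ℕ → ℝ := fun k => 1 - 1 / ((k : ℝ) + 2)
  have hr0 : ∀ k, 0 < r k := by
    intro k
    have : (1:ℝ) / ((k : ℝ) + 2) < 1 := by
      rw [div_lt_one (by positivity)]
      have : (0:ℝ) ≤ k := by positivity
      linarith
    simp only [r]; linarith
  have hr1 : ∀ k, r k < 1 := by
    intro k
    have : (0:ℝ) < 1 / ((k : ℝ) + 2) := by positivity
    simp only [r]; linarith
  have hrlim : Tendsto r atTop (𝓝 1) := by
    have h2 : Tendsto (fun k : ℕ => 1 / ((k : ℝ) + 2)) atTop (𝓝 0) := by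
      have := (tendsto_const_div_atTop_nhds_zero_nat (1:ℝ)).comp (tendsto_add_atTop_nat 2)
      refine this.congr fun k => ?_
      simp
    have := tendsto_const_nhds (x := (1:ℝ)) (f := atTop (α := ℕ)) |>.sub h2
    simpa [r] using this
  let ν : Measure (Fin n → ℝ) := volume.withDensity G
  have : IsFiniteMeasure ν := isFiniteMeasure_withDensity hGfin
  let L : ℕ → ℝ → ℝ≥0∞ := fun k θ =>
    ∫⁻ x, G x * ‖F (Z y0 y1 x (cay (circleMap 0 (r k) θ)))‖ₑ ^ q
  have hIm : ∀ k θ, 0 < (cay (circleMap 0 (r k) θ)).im := by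
    intro k θ
    apply cay_im_pos
    simp [abs_of_pos (hr0 k), hr1 k]
  -- continuity in x
  have hwc : ∀ k θ, Continuous (fun x => F (Z y0 y1 x (cay (circleMap 0 (r k) θ)))) := by
    intro k θ
    apply hFc.comp_continuous
    · apply continuous_pi
      intro j
      simp only [Z]
      fun_prop
    · intro x
      rw [Z_eq]
      exact pt_mem (cone_mem hconv hcone h0 h1 (hIm k θ).le)
  have hwm : ∀ k θ, Measurable (fun x => ‖F (Z y0 y1 x (cay (circleMap 0 (r k) θ)))‖ₑ ^ q) :=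
    fun k θ => (hwc k θ).measurable.enorm.pow_const q
  have hLeq : ∀ k θ, L k θ =
      ∫⁻ x, ‖F (Z y0 y1 x (cay (circleMap 0 (r k) θ)))‖ₑ ^ q ∂ν := by
    intro k θ
    rw [lintegral_withDensity_eq_lintegral_mul _ hG (hwm k θ)]
    rfl
  -- L2 bound
  have hL2 : ∀ k θ, ∫⁻ x, (‖F (Z y0 y1 x (cay (circleMap 0 (r k) θ)))‖ₑ ^ q) ^ 2 ∂ν ≤ N * C := by
    intro k θ
    rw [lintegral_withDensity_eq_lintegral_mul _ hG ((hwm k θ).pow_const 2)]
    calc ∫⁻ x, (G * fun x => (‖F (Z y0 y1 x (cay (circleMap 0 (r k) θ)))‖ₑ ^ q) ^ 2) x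
        ≤ ∫⁻ x, N * (‖F (Z y0 y1 x (cay (circleMap 0 (r k) θ)))‖ₑ ^ q) ^ 2 := by
          apply lintegral_mono
          intro x
          simp only [Pi.mul_apply]
          gcongr
          exact hGN x
      _ = N * ∫⁻ x, (‖F (Z y0 y1 x (cay (circleMap 0 (r k) θ)))‖ₑ ^ q) ^ 2 := by
          rw [lintegral_const_mul _ ((hwm k θ).pow_const 2)]
      _ ≤ N * C := by
          gcongr
          simp only [Z_eq]
          rw [lintegral_add_right_eq_self (μ := volume)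
            (fun x => (‖F (pt x (y0 + (cay (circleMap 0 (r k) θ)).im • y1))‖ₑ ^ q) ^ 2)]
          exact hb _ (cone_mem hconv hcone h0 h1 (hIm k θ).le)
  have hNC : N * C ≠ ∞ := ENNReal.mul_ne_top hN hC
  -- uniform bound
  have hLb : ∀ k θ, L k θ ≤ ν univ + N * C := by
    intro k θ
    rw [hLeq]
    calc ∫⁻ x, ‖F (Z y0 y1 x (cay (circleMap 0 (r k) θ)))‖ₑ ^ q ∂ν
        ≤ ∫⁻ x, (1 + (‖F (Z y0 y1 x (cay (circleMap 0 (r k) θ)))‖ₑ ^ q) ^ 2) ∂ν :=
          lintegral_mono fun x => le_one_add_sq _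
      _ = ν univ + ∫⁻ x, (‖F (Z y0 y1 x (cay (circleMap 0 (r k) θ)))‖ₑ ^ q) ^ 2 ∂ν := by
          rw [lintegral_add_left measurable_const, lintegral_one]
      _ ≤ ν univ + N * C := by
          gcongr
          exact hL2 k θ
  -- measurability in θ
  have hLm : ∀ k, Measurable (L k) := by
    intro k
    have hne : ∀ θ : ℝ, 1 - circleMap 0 (r k) θ ≠ 0 := by
      intro θ h
      have h2 : circleMap 0 (r k) θ = 1 := (sub_eq_zero.mp h).symm
      have h3 : ‖circleMap 0 (r k) θ‖ = |r k| := by simp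
      rw [h2] at h3
      simp at h3
      rw [abs_of_pos (hr0 k)] at h3
      linarith [hr1 k]
    have hcont : Continuous (fun p : ℝ × (Fin n → ℝ) =>
        F (Z y0 y1 p.2 (cay (circleMap 0 (r k) p.1)))) := by
      apply hFc.comp_continuous
      · apply continuous_pi
        intro j
        simp only [Z, cay]
        have h5 : Continuous (fun p : ℝ × (Fin n → ℝ) =>
            Complex.I * (1 + circleMap 0 (r k) p.1) / (1 - circleMap 0 (r k) p.1)) := by
          apply Continuous.div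
          · fun_prop
          · fun_prop
          · exact fun p => hne p.1
        fun_prop
      · intro p
        rw [Z_eq]
        exact pt_mem (cone_mem hconv hcone h0 h1 (hIm k p.1).le)
    have hm : Measurable (fun p : ℝ × (Fin n → ℝ) =>
        G p.2 * ‖F (Z y0 y1 p.2 (cay (circleMap 0 (r k) p.1)))‖ₑ ^ q) :=
      (hG.comp measurable_snd).mul (hcont.measurable.enorm.pow_const q)
    exact hm.lintegral_prod_right'
  -- pointwise limsup
  have hlimsup : ∀ θ ∈ Ioo 0 (2 * π), limsup (fun k => L k θ) atTop ≤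
      ∫⁻ x, G x * ‖F (pt (x + tau θ • y1) y0)‖ₑ ^ q := by
    intro θ hθ
    have hne1 := circleMap_ne_one hθ
    have hZ1 : ∀ x, Z y0 y1 x (cay (circleMap 0 1 θ)) = pt (x + tau θ • y1) y0 := by
      intro x
      rw [Z_eq, cay_im_zero (by simp) hne1]
      simp [tau]
    have hc1 : Continuous (fun x => F (pt (x + tau θ • y1) y0)) :=
      (measurable_slice hFc h0).comp (continuous_id.add continuous_const)
    have hm1 : Measurable (fun x => ‖F (pt (x + tau θ • y1) y0)‖ₑ ^ q) :=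
      hc1.measurable.enorm.pow_const q
    have h := limsup_lintegral_le' ν
      (fun k x => ‖F (Z y0 y1 x (cay (circleMap 0 (r k) θ)))‖ₑ ^ q)
      (fun x => ‖F (pt (x + tau θ • y1) y0)‖ₑ ^ q) (fun k => hwm k θ) ?_ (N * C) hNC
      (fun k => hL2 k θ)
    · rw [lintegral_withDensity_eq_lintegral_mul _ hG hm1] at h
      simp only [hLeq]
      exact h
    · refine Eventually.of_forall fun x => ?_
      have hmem : Z y0 y1 x (cay (circleMap 0 1 θ)) ∈ tube Γ := by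
        rw [hZ1]
        exact pt_mem h0
      have hFat : ContinuousAt F (Z y0 y1 x (cay (circleMap 0 1 θ))) :=
        hFc.continuousAt ((isOpen_tube hΓo).mem_nhds hmem)
      have hcaycont : ContinuousAt (fun s : ℝ => Z y0 y1 x (cay (circleMap 0 s θ))) 1 := by
        apply continuousAt_pi.mpr
        intro j
        simp only [Z, cay]
        have h6 : ContinuousAt (fun s : ℝ => circleMap 0 s θ) 1 := by
          simp only [circleMap]
          fun_prop
        have h7 : 1 - circleMap 0 1 θ ≠ 0 := sub_ne_zero.mpr (Ne.symm hne1)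
        have h8 : ContinuousAt (fun s : ℝ =>
            Complex.I * (1 + circleMap 0 s θ) / (1 - circleMap 0 s θ)) 1 := by
          apply ContinuousAt.div
          · fun_prop
          · fun_prop
          · exact h7
        fun_prop
      have hcomp : ContinuousAt (fun s : ℝ => F (Z y0 y1 x (cay (circleMap 0 s θ)))) 1 :=
        ContinuousAt.comp (g := F) hFat hcaycont
      have hT : Tendsto (fun k => F (Z y0 y1 x (cay (circleMap 0 (r k) θ)))) atTop
          (𝓝 (F (Z y0 y1 x (cay (circleMap 0 1 θ))))) := hcomp.tendsto.comp hrlim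
      rw [hZ1] at hT
      have hE : Continuous (fun z : ℂ => ‖z‖ₑ ^ q) :=
        (ENNReal.continuous_rpow_const).comp continuous_enorm
      exact (hE.tendsto _).comp hT
  -- conclusion
  have hk : ∀ k, c⁻¹ * ∫⁻ x, G x * ‖F (pt x (y0 + y1))‖ₑ ^ q ≤ ∫⁻ θ in Ioc 0 (2 * π), L k θ := by
    intro k
    have h := ineq_r hΓo hconv hcone hF h0 h1 hq G hG (hr0 k) (hr1 k)
    calc c⁻¹ * ∫⁻ x, G x * ‖F (pt x (y0 + y1))‖ₑ ^ q ≤ c⁻¹ * (c * ∫⁻ θ in Ioc 0 (2 * π), L k θ) := by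
          gcongr
      _ = _ := by
          rw [← mul_assoc, ENNReal.inv_mul_cancel hc0 hctop, one_mul]
  have hlim2 : c⁻¹ * ∫⁻ x, G x * ‖F (pt x (y0 + y1))‖ₑ ^ q ≤
      ∫⁻ θ in Ioc 0 (2 * π), ∫⁻ x, G x * ‖F (pt (x + tau θ • y1) y0)‖ₑ ^ q := by
    calc c⁻¹ * ∫⁻ x, G x * ‖F (pt x (y0 + y1))‖ₑ ^ q
        = limsup (fun _ : ℕ => c⁻¹ * ∫⁻ x, G x * ‖F (pt x (y0 + y1))‖ₑ ^ q) atTop := by
          rw [limsup_const]
      _ ≤ limsup (fun k => ∫⁻ θ in Ioc 0 (2 * π), L k θ) atTop :=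
          limsup_le_limsup (Eventually.of_forall hk)
      _ ≤ ∫⁻ θ in Ioc 0 (2 * π), limsup (fun k => L k θ) atTop := by
          apply limsup_lintegral_le (fun _ => ν univ + N * C) hLm
            (fun k => Eventually.of_forall fun θ => hLb k θ)
          rw [lintegral_const]
          apply ENNReal.mul_ne_top (ENNReal.add_ne_top.mpr ⟨measure_ne_top _ _, hNC⟩)
          rw [Measure.restrict_apply_univ, Real.volume_Ioc]
          exact ENNReal.ofReal_ne_top
      _ ≤ ∫⁻ θ in Ioc 0 (2 * π), ∫⁻ x, G x * ‖F (pt (x + tau θ • y1) y0)‖ₑ ^ q := by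
          rw [← restrict_Ioo_eq_restrict_Ioc]
          apply setLIntegral_mono_ae'
          · exact measurableSet_Ioo
          · exact Eventually.of_forall fun θ hθ => hlimsup θ hθ
  calc ∫⁻ x, G x * ‖F (pt x (y0 + y1))‖ₑ ^ q
      = c * (c⁻¹ * ∫⁻ x, G x * ‖F (pt x (y0 + y1))‖ₑ ^ q) := by
        rw [← mul_assoc, ENNReal.mul_inv_cancel hc0 hctop, one_mul]
    _ ≤ _ := by gcongr



theorem amgm (a b : ℝ≥0∞) : a * b ≤ 2⁻¹ * (a ^ 2 + b ^ 2) := by
  rcases eq_or_ne a ∞ with rfl | ha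
  · have : (2⁻¹ : ℝ≥0∞) * (∞ ^ 2 + b ^ 2) = ∞ := by
      rw [ENNReal.top_pow (by norm_num), top_add, ENNReal.mul_top]
      simp
    rw [this]; exact le_top
  rcases eq_or_ne b ∞ with rfl | hb
  · have : (2⁻¹ : ℝ≥0∞) * (a ^ 2 + ∞ ^ 2) = ∞ := by
      rw [ENNReal.top_pow (by norm_num), add_top, ENNReal.mul_top]
      simp
    rw [this]; exact le_top
  lift a to ℝ≥0 using ha
  lift b to ℝ≥0 using hb
  have h1 : (2⁻¹ : ℝ≥0∞) = ((2⁻¹ : ℝ≥0) : ℝ≥0∞) := by
    rw [ENNReal.coe_inv (by norm_num)]; rfl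
  rw [h1]
  norm_cast
  rw [← NNReal.coe_le_coe]
  push_cast
  nlinarith [sq_nonneg ((a:ℝ) - b)]

theorem BL {α : Type*} [MeasurableSpace α] (μ : Measure α) (u : ℕ → α → ℂ) (u0 : α → ℂ)
    {p : ℝ} (hp0 : 0 < p) (hp1 : p ≤ 1) (hu : ∀ k, AEMeasurable (u k) μ)
    (hu0 : AEMeasurable u0 μ)
    (hlim : ∀ᵐ x ∂μ, Tendsto (fun k => u k x) atTop (𝓝 (u0 x)))
    (hfin : ∫⁻ x, ‖u0 x‖ₑ ^ p ∂μ ≠ ∞)
    (hle : ∀ k, ∫⁻ x, ‖u k x‖ₑ ^ p ∂μ ≤ ∫⁻ x, ‖u0 x‖ₑ ^ p ∂μ) :
    Tendsto (fun k => ∫⁻ x, ‖u k x - u0 x‖ₑ ^ p ∂μ) atTop (𝓝 0) := by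
  set A := ∫⁻ x, ‖u0 x‖ₑ ^ p ∂μ with hA
  let s : ℕ → α → ℝ≥0∞ := fun k x => ‖u k x‖ₑ ^ p + ‖u0 x‖ₑ ^ p
  let d : ℕ → α → ℝ≥0∞ := fun k x => ‖u k x - u0 x‖ₑ ^ p
  have hds : ∀ k x, d k x ≤ s k x := by
    intro k x
    calc d k x ≤ (‖u k x‖ₑ + ‖u0 x‖ₑ) ^ p := by
          apply ENNReal.rpow_le_rpow _ hp0.le
          exact enorm_sub_le
      _ ≤ _ := ENNReal.rpow_add_le_add_rpow _ _ hp0.le hp1
  have hum : ∀ k, AEMeasurable (fun x => ‖u k x‖ₑ ^ p) μ := fun k => (hu k).enorm.pow_const p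
  have hu0m : AEMeasurable (fun x => ‖u0 x‖ₑ ^ p) μ := hu0.enorm.pow_const p
  have hdm : ∀ k, AEMeasurable (d k) μ := fun k => ((hu k).sub hu0).enorm.pow_const p
  have hsm : ∀ k, AEMeasurable (s k) μ := fun k => (hum k).add hu0m
  have hsI : ∀ k, ∫⁻ x, s k x ∂μ ≤ 2 * A := by
    intro k
    simp only [s]
    rw [lintegral_add_right' _ hu0m, two_mul]
    gcongr
    exact hle k
  have h2A : 2 * A ≠ ∞ := ENNReal.mul_ne_top (by norm_num) hfin
  have hdI : ∀ k, ∫⁻ x, d k x ∂μ ≤ 2 * A := fun k =>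
    (lintegral_mono (hds k)).trans (hsI k)
  have hw : ∀ k, ∫⁻ x, (s k x - d k x) ∂μ ≤ 2 * A - ∫⁻ x, d k x ∂μ := by
    intro k
    rw [lintegral_sub' (hdm k) (ne_top_of_le_ne_top h2A (hdI k))
      (Eventually.of_forall fun x => hds k x)]
    gcongr
    exact hsI k
  have hlim2 : ∀ᵐ x ∂μ, liminf (fun k => s k x - d k x) atTop = ‖u0 x‖ₑ ^ p + ‖u0 x‖ₑ ^ p := by
    filter_upwards [hlim] with x hx
    have hE : Continuous (fun z : ℂ => ‖z‖ₑ ^ p) :=
      (ENNReal.continuous_rpow_const).comp continuous_enorm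
    have h1 : Tendsto (fun k => ‖u k x‖ₑ ^ p) atTop (𝓝 (‖u0 x‖ₑ ^ p)) := (hE.tendsto _).comp hx
    have h2 : Tendsto (fun k => d k x) atTop (𝓝 0) := by
      have h3 : Tendsto (fun k => u k x - u0 x) atTop (𝓝 0) := by
        have := hx.sub_const (u0 x)
        simpa using this
      have h4 := (hE.tendsto 0).comp h3
      simpa [Function.comp_def, hp0] using h4
    have h5 : Tendsto (fun k => s k x) atTop (𝓝 (‖u0 x‖ₑ ^ p + ‖u0 x‖ₑ ^ p)) :=
      h1.add tendsto_const_nhds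
    have h6 := ENNReal.Tendsto.sub h5 h2 (Or.inr (by simp))
    rw [tsub_zero] at h6
    exact h6.liminf_eq
  have hF : 2 * A ≤ liminf (fun k => 2 * A - ∫⁻ x, d k x ∂μ) atTop := by
    calc 2 * A = ∫⁻ x, liminf (fun k => s k x - d k x) atTop ∂μ := by
          rw [lintegral_congr_ae hlim2, lintegral_add_left' hu0m, two_mul]
      _ ≤ liminf (fun k => ∫⁻ x, (s k x - d k x) ∂μ) atTop :=
          lintegral_liminf_le' fun k => (hsm k).sub (hdm k)
      _ ≤ _ := liminf_le_liminf (Eventually.of_forall hw)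
  rw [ENNReal.liminf_const_sub _ _ h2A] at hF
  have hLs : limsup (fun k => ∫⁻ x, d k x ∂μ) atTop ≤ 0 := by
    by_contra hne
    push Not at hne
    have hle2 : limsup (fun k => ∫⁻ x, d k x ∂μ) atTop ≤ 2 * A := by
      have := limsup_le_limsup (f := (atTop : Filter ℕ)) (Eventually.of_forall hdI)
      simpa using this
    have hA0 : 2 * A ≠ 0 := by
      intro h0
      rw [h0] at hle2
      exact absurd hne (not_lt.mpr hle2)
    exact absurd hF (not_le.mpr (ENNReal.sub_lt_self h2A hA0 hne.ne'))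
  exact tendsto_of_le_liminf_of_limsup_le (zero_le) hLs


/-- Truncation of `w` by height `k` and to the closed ball of radius `k`. -/
noncomputable def trunc (w : (Fin n → ℝ) → ℝ≥0∞) (k : ℕ) : (Fin n → ℝ) → ℝ≥0∞ :=
  (closedBall (0 : Fin n → ℝ) k).indicator (fun x => min (w x) k)

theorem trunc_meas {w : (Fin n → ℝ) → ℝ≥0∞} (hw : Measurable w) (k : ℕ) :
    Measurable (trunc w k) :=
  (hw.min measurable_const).indicator measurableSet_closedBall

theorem trunc_le (w : (Fin n → ℝ) → ℝ≥0∞) (k : ℕ) (x : Fin n → ℝ) : trunc w k x ≤ k := by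
  unfold trunc
  by_cases hx : x ∈ closedBall (0 : Fin n → ℝ) k
  · rw [indicator_of_mem hx]; exact min_le_right _ _
  · rw [indicator_of_notMem hx]; exact zero_le

theorem trunc_le_self (w : (Fin n → ℝ) → ℝ≥0∞) (k : ℕ) (x : Fin n → ℝ) :
    trunc w k x ≤ w x := by
  unfold trunc
  by_cases hx : x ∈ closedBall (0 : Fin n → ℝ) k
  · rw [indicator_of_mem hx]; exact min_le_left _ _
  · rw [indicator_of_notMem hx]; exact zero_le

theorem trunc_fin (w : (Fin n → ℝ) → ℝ≥0∞) (k : ℕ) : ∫⁻ x, trunc w k x ≠ ∞ := by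
  have h : ∫⁻ x, trunc w k x ≤ ∫⁻ x, (closedBall (0 : Fin n → ℝ) k).indicator (fun _ => (k : ℝ≥0∞)) x := by
    apply lintegral_mono
    intro x
    unfold trunc
    apply indicator_le_indicator
    exact min_le_right _ _
  refine ne_top_of_le_ne_top ?_ h
  rw [lintegral_indicator measurableSet_closedBall, lintegral_const, Measure.restrict_apply_univ]
  exact ENNReal.mul_ne_top (ENNReal.natCast_ne_top k) (measure_closedBall_lt_top).ne

theorem trunc_sq_fin (w : (Fin n → ℝ) → ℝ≥0∞) (k : ℕ) : ∫⁻ x, (trunc w k x) ^ 2 ≠ ∞ := by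
  have h : ∫⁻ x, (trunc w k x) ^ 2 ≤ k * ∫⁻ x, trunc w k x := by
    rw [← lintegral_const_mul' _ _ (ENNReal.natCast_ne_top k)]
    apply lintegral_mono
    intro x
    simp only
    rw [sq]
    gcongr
    exact trunc_le w k x
  exact ne_top_of_le_ne_top (ENNReal.mul_ne_top (ENNReal.natCast_ne_top k) (trunc_fin w k)) h

theorem trunc_tendsto (w : (Fin n → ℝ) → ℝ≥0∞) (x : Fin n → ℝ) :
    Tendsto (fun k => trunc w k x) atTop (𝓝 (w x)) := by
  have h1 : Tendsto (fun k : ℕ => min (w x) (k : ℝ≥0∞)) atTop (𝓝 (min (w x) ∞)) :=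
    tendsto_const_nhds.min ENNReal.tendsto_nat_nhds_top
  rw [min_eq_left le_top] at h1
  refine h1.congr' ?_
  obtain ⟨K, hK⟩ := exists_nat_ge ‖x‖
  filter_upwards [eventually_ge_atTop K] with k hk
  unfold trunc
  rw [indicator_of_mem]
  rw [mem_closedBall_zero_iff]
  exact hK.trans (by exact_mod_cast hk)

theorem sq_le_of_trunc (w : (Fin n → ℝ) → ℝ≥0∞) (hw : Measurable w) (D : ℝ≥0∞)
    (h : ∀ k, ∫⁻ x, (trunc w k x) ^ 2 ≤ D) : ∫⁻ x, (w x) ^ 2 ≤ D := by
  calc ∫⁻ x, (w x) ^ 2 = ∫⁻ x, liminf (fun k => (trunc w k x) ^ 2) atTop := by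
        apply lintegral_congr
        intro x
        have h2 : Tendsto (fun k => (trunc w k x) ^ 2) atTop (𝓝 ((w x) ^ 2)) :=
          ((ENNReal.continuous_pow 2).tendsto _).comp (trunc_tendsto w x)
        exact h2.liminf_eq.symm
    _ ≤ liminf (fun k => ∫⁻ x, (trunc w k x) ^ 2) atTop :=
        lintegral_liminf_le fun k => (trunc_meas hw k).pow_const 2
    _ ≤ liminf (fun _ : ℕ => D) atTop := liminf_le_liminf (Eventually.of_forall h)
    _ = D := by simp

theorem key_sq (w u : (Fin n → ℝ) → ℝ≥0∞) (hw : Measurable w) (y1 : Fin n → ℝ)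
    (h : ∀ k : ℕ, ∫⁻ x, trunc w k x * w x ≤ ENNReal.ofReal (2 * π)⁻¹ *
      ∫⁻ θ in Ioc 0 (2 * π), ∫⁻ x, trunc w k x * u (x + tau θ • y1)) :
    ∫⁻ x, (w x) ^ 2 ≤ ∫⁻ x, (u x) ^ 2 := by
  apply sq_le_of_trunc w hw
  intro k
  set Gs := ∫⁻ x, (trunc w k x) ^ 2 with hGs
  set U := ∫⁻ x, (u x) ^ 2 with hU
  have hfin : Gs ≠ ∞ := trunc_sq_fin w k
  have h1 : Gs ≤ ∫⁻ x, trunc w k x * w x := by
    apply lintegral_mono
    intro x
    simp only
    rw [sq]
    gcongr
    exact trunc_le_self w k x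
  have h2 : ∀ θ : ℝ, ∫⁻ x, trunc w k x * u (x + tau θ • y1) ≤ 2⁻¹ * (Gs + U) := by
    intro θ
    calc ∫⁻ x, trunc w k x * u (x + tau θ • y1)
        ≤ ∫⁻ x, 2⁻¹ * ((trunc w k x) ^ 2 + (u (x + tau θ • y1)) ^ 2) :=
          lintegral_mono fun x => amgm _ _
      _ = 2⁻¹ * (Gs + ∫⁻ x, (u (x + tau θ • y1)) ^ 2) := by
          rw [lintegral_const_mul' _ _ (by simp), lintegral_add_left ((trunc_meas hw k).pow_const 2)]
      _ = 2⁻¹ * (Gs + U) := by
          rw [lintegral_add_right_eq_self (μ := volume) (fun x => (u x) ^ 2)]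
  have h3 : Gs ≤ 2⁻¹ * (Gs + U) := by
    calc Gs ≤ _ := h1
      _ ≤ _ := h k
      _ ≤ ENNReal.ofReal (2 * π)⁻¹ * ∫⁻ θ in Ioc 0 (2 * π), 2⁻¹ * (Gs + U) := by
          gcongr with θ
          exact h2 θ
      _ = 2⁻¹ * (Gs + U) := by
          rw [lintegral_const, Measure.restrict_apply_univ, Real.volume_Ioc, sub_zero,
            mul_comm (2⁻¹ * (Gs + U)), ← mul_assoc, ← ENNReal.ofReal_mul (by positivity),
            inv_mul_cancel₀ (by positivity), ENNReal.ofReal_one, one_mul]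
  rcases eq_or_ne U ∞ with hUtop | hUtop
  · rw [hUtop]; exact le_top
  have h4 : 2 * Gs ≤ Gs + U := by
    calc 2 * Gs ≤ 2 * (2⁻¹ * (Gs + U)) := by gcongr
      _ = Gs + U := by
        rw [← mul_assoc, ENNReal.mul_inv_cancel (by norm_num) (by norm_num), one_mul]
  rw [two_mul] at h4
  exact (ENNReal.add_le_add_iff_left hfin).mp h4

theorem mono {Γ : Set (Fin n → ℝ)} (hΓo : IsOpen Γ) (hconv : Convex ℝ Γ)
    (hcone : ∀ y ∈ Γ, ∀ t : ℝ, 0 < t → t • y ∈ Γ) {F : (Fin n → ℂ) → ℂ}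
    (hF : DifferentiableOn ℂ F (tube Γ)) {q : ℝ} (hq : 0 < q)
    (C : ℝ≥0∞) (hC : C ≠ ∞) (hb : ∀ y ∈ Γ, ∫⁻ x, (‖F (pt x y)‖ₑ ^ q) ^ 2 ≤ C)
    {y0 y1 : Fin n → ℝ} (h0 : y0 ∈ Γ) (h1 : y1 ∈ Γ) :
    ∫⁻ x, (‖F (pt x (y0 + y1))‖ₑ ^ q) ^ 2 ≤ ∫⁻ x, (‖F (pt x y0)‖ₑ ^ q) ^ 2 := by
  have h01 : y0 + y1 ∈ Γ := by
    have := cone_mem hconv hcone h0 h1 (t := 1) (by norm_num)
    simpa using this
  have hw : Measurable (fun x => ‖F (pt x (y0 + y1))‖ₑ ^ q) :=
    (measurable_slice hF.continuousOn h01).measurable.enorm.pow_const q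
  apply key_sq _ (fun x => ‖F (pt x y0)‖ₑ ^ q) hw y1
  intro k
  exact ineq_one hΓo hconv hcone hF h0 h1 hq _ (trunc_meas hw k) k (ENNReal.natCast_ne_top k)
    (trunc_le _ k) (trunc_fin _ k) C hC hb


theorem radial_bound {Γ : Set (Fin n → ℝ)} (hΓo : IsOpen Γ) (hconv : Convex ℝ Γ)
    (hcone : ∀ y ∈ Γ, ∀ t : ℝ, 0 < t → t • y ∈ Γ) {F : (Fin n → ℂ) → ℂ}
    (hF : DifferentiableOn ℂ F (tube Γ)) {q : ℝ} (hq : 0 < q)
    (C : ℝ≥0∞) (hC : C ≠ ∞) (hb : ∀ y ∈ Γ, ∫⁻ x, (‖F (pt x y)‖ₑ ^ q) ^ 2 ≤ C)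
    {e : Fin n → ℝ} (he : e ∈ Γ) (f : (Fin n → ℝ) → ℂ)
    (hf : ∀ᵐ x, Tendsto (fun t : ℝ => F (pt x (t • e))) (𝓝[>] 0) (𝓝 (f x)))
    {ε : ℝ} (hε : 0 < ε) :
    ∫⁻ x, (‖F (pt x (ε • e))‖ₑ ^ q) ^ 2 ≤ ∫⁻ x, (‖f x‖ₑ ^ q) ^ 2 := by
  have hFc : ContinuousOn F (tube Γ) := hF.continuousOn
  have hεe : ε • e ∈ Γ := hcone _ he _ hε
  set c : ℝ≥0∞ := ENNReal.ofReal (2 * π)⁻¹ with hc
  have hctop : c ≠ ∞ := ENNReal.ofReal_ne_top
  have hE : Continuous (fun z : ℂ => ‖z‖ₑ ^ q) :=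
    (ENNReal.continuous_rpow_const).comp continuous_enorm
  let η : ℕ → ℝ := fun j => 1 / ((j : ℝ) + 1)
  have hη0 : ∀ j, 0 < η j := fun j => by simp only [η]; positivity
  have hηlim : Tendsto η atTop (𝓝 0) := tendsto_one_div_add_atTop_nhds_zero_nat
  have hηlim' : Tendsto η atTop (𝓝[>] 0) :=
    tendsto_nhdsWithin_iff.mpr ⟨hηlim, Eventually.of_forall hη0⟩
  have hηe : ∀ j, η j • e ∈ Γ := fun j => hcone _ he _ (hη0 j)
  have hfm : AEMeasurable f := by
    apply aemeasurable_of_tendsto_metrizable_ae (atTop : Filter ℕ)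
      (f := fun j x => F (pt x (η j • e)))
    · exact fun j => (measurable_slice hFc (hηe j)).measurable.aemeasurable
    · filter_upwards [hf] with x hx
      exact hx.comp hηlim'
  have hw : Measurable (fun x => ‖F (pt x (ε • e))‖ₑ ^ q) :=
    (measurable_slice hFc hεe).measurable.enorm.pow_const q
  apply key_sq _ (fun x => ‖f x‖ₑ ^ q) hw (ε • e)
  intro k
  set G := trunc (fun x => ‖F (pt x (ε • e))‖ₑ ^ q) k with hG
  have hGm : Measurable G := trunc_meas hw k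
  have hGk : ∀ x, G x ≤ k := trunc_le _ k
  have hGfin : ∫⁻ x, G x ≠ ∞ := trunc_fin _ k
  let ν : Measure (Fin n → ℝ) := volume.withDensity G
  have : IsFiniteMeasure ν := isFiniteMeasure_withDensity hGfin
  have hNC : (k : ℝ≥0∞) * C ≠ ∞ := ENNReal.mul_ne_top (ENNReal.natCast_ne_top k) hC
  have hvm : ∀ j, Measurable (fun x => ‖F (pt x (η j • e))‖ₑ ^ q) := fun j =>
    (measurable_slice hFc (hηe j)).measurable.enorm.pow_const q
  let L : ℕ → ℝ → ℝ≥0∞ := fun j θ =>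
    ∫⁻ x, G x * ‖F (pt (x + tau θ • (ε • e)) (η j • e))‖ₑ ^ q
  have hwm : ∀ j θ, Measurable (fun x => ‖F (pt (x + tau θ • (ε • e)) (η j • e))‖ₑ ^ q) :=
    fun j θ => (hvm j).comp (measurable_id.add_const _)
  have hLeq : ∀ j θ, L j θ = ∫⁻ x, ‖F (pt (x + tau θ • (ε • e)) (η j • e))‖ₑ ^ q ∂ν := by
    intro j θ
    rw [lintegral_withDensity_eq_lintegral_mul _ hGm (hwm j θ)]
    rfl
  have hL2 : ∀ j θ, ∫⁻ x, (‖F (pt (x + tau θ • (ε • e)) (η j • e))‖ₑ ^ q) ^ 2 ∂ν ≤ k * C := by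
    intro j θ
    rw [lintegral_withDensity_eq_lintegral_mul _ hGm ((hwm j θ).pow_const 2)]
    calc ∫⁻ x, (G * fun x => (‖F (pt (x + tau θ • (ε • e)) (η j • e))‖ₑ ^ q) ^ 2) x
        ≤ ∫⁻ x, k * (‖F (pt (x + tau θ • (ε • e)) (η j • e))‖ₑ ^ q) ^ 2 := by
          apply lintegral_mono
          intro x
          simp only [Pi.mul_apply]
          gcongr
          exact hGk x
      _ = k * ∫⁻ x, (‖F (pt (x + tau θ • (ε • e)) (η j • e))‖ₑ ^ q) ^ 2 := by
          rw [lintegral_const_mul _ ((hwm j θ).pow_const 2)]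
      _ ≤ k * C := by
          gcongr
          rw [lintegral_add_right_eq_self (μ := volume)
            (fun x => (‖F (pt x (η j • e))‖ₑ ^ q) ^ 2)]
          exact hb _ (hηe j)
  have hLb : ∀ j θ, L j θ ≤ ν univ + k * C := by
    intro j θ
    rw [hLeq]
    calc ∫⁻ x, ‖F (pt (x + tau θ • (ε • e)) (η j • e))‖ₑ ^ q ∂ν
        ≤ ∫⁻ x, (1 + (‖F (pt (x + tau θ • (ε • e)) (η j • e))‖ₑ ^ q) ^ 2) ∂ν :=
          lintegral_mono fun x => le_one_add_sq _
      _ = ν univ + ∫⁻ x, (‖F (pt (x + tau θ • (ε • e)) (η j • e))‖ₑ ^ q) ^ 2 ∂ν := by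
          rw [lintegral_add_left measurable_const, lintegral_one]
      _ ≤ ν univ + k * C := by
          gcongr
          exact hL2 j θ
  have htau : Measurable tau := by
    unfold tau cay
    have h1 : Measurable (fun θ : ℝ => circleMap 0 1 θ) := (continuous_circleMap 0 1).measurable
    fun_prop
  have hLm : ∀ j, Measurable (L j) := by
    intro j
    have hm : Measurable (fun p : ℝ × (Fin n → ℝ) =>
        G p.2 * ‖F (pt (p.2 + tau p.1 • (ε • e)) (η j • e))‖ₑ ^ q) := by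
      apply (hGm.comp measurable_snd).mul
      exact (hvm j).comp (measurable_snd.add ((htau.comp measurable_fst).smul_const _))
    exact hm.lintegral_prod_right'
  have hlimsup : ∀ θ : ℝ, limsup (fun j => L j θ) atTop ≤
      ∫⁻ x, G x * ‖f (x + tau θ • (ε • e))‖ₑ ^ q := by
    intro θ
    have hqmp : Measure.QuasiMeasurePreserving (fun x : Fin n → ℝ => x + tau θ • (ε • e))
        volume volume := (measurePreserving_add_right volume (tau θ • (ε • e))).quasiMeasurePreserving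
    have hfm' : AEMeasurable (fun x => ‖f (x + tau θ • (ε • e))‖ₑ ^ q) ν := by
      apply AEMeasurable.mono_ac _ (withDensity_absolutelyContinuous _ _)
      exact (hfm.comp_quasiMeasurePreserving hqmp).enorm.pow_const q
    have h := limsup_lintegral_le' ν
      (fun j x => ‖F (pt (x + tau θ • (ε • e)) (η j • e))‖ₑ ^ q)
      (fun x => ‖f (x + tau θ • (ε • e))‖ₑ ^ q) (fun j => hwm j θ) ?_ (k * C) hNC
      (fun j => hL2 j θ)
    · have e2 : ∫⁻ x, ‖f (x + tau θ • (ε • e))‖ₑ ^ q ∂ν =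
          ∫⁻ x, G x * ‖f (x + tau θ • (ε • e))‖ₑ ^ q := by
        rw [lintegral_withDensity_eq_lintegral_mul₀' hGm.aemeasurable hfm']
        rfl
      rw [e2] at h
      simp only [hLeq]
      exact h
    · have h1 : ∀ᵐ x : Fin n → ℝ, Tendsto
          (fun j => ‖F (pt (x + tau θ • (ε • e)) (η j • e))‖ₑ ^ q) atTop
          (𝓝 (‖f (x + tau θ • (ε • e))‖ₑ ^ q)) := by
        filter_upwards [hqmp.ae hf] with x hx
        exact (hE.tendsto _).comp (hx.comp hηlim')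
      exact (withDensity_absolutelyContinuous _ _) h1
  have hj : ∀ j, ∫⁻ x, G x * ‖F (pt x (η j • e + ε • e))‖ₑ ^ q ≤
      c * ∫⁻ θ in Ioc 0 (2 * π), L j θ := by
    intro j
    exact ineq_one hΓo hconv hcone hF (hηe j) hεe hq G hGm k (ENNReal.natCast_ne_top k)
      hGk hGfin C hC hb
  calc ∫⁻ x, G x * ‖F (pt x (ε • e))‖ₑ ^ q
      = ∫⁻ x, liminf (fun j => G x * ‖F (pt x (η j • e + ε • e))‖ₑ ^ q) atTop := by
        apply lintegral_congr
        intro x
        symm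
        apply Tendsto.liminf_eq
        have hmem : pt x (ε • e) ∈ tube Γ := pt_mem hεe
        have hFat : ContinuousAt F (pt x (ε • e)) :=
          hFc.continuousAt ((isOpen_tube hΓo).mem_nhds hmem)
        have h1 : Tendsto (fun j => pt x (η j • e + ε • e)) atTop (𝓝 (pt x (ε • e))) := by
          have h2 : Continuous (fun t : ℝ => pt x (t • e + ε • e)) :=
            continuous_pt.comp (by fun_prop : Continuous fun t : ℝ => (x, t • e + ε • e))
          have h3 := (h2.tendsto 0).comp hηlim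
          simpa [Function.comp_def] using h3
        have h4 : Tendsto (fun j => ‖F (pt x (η j • e + ε • e))‖ₑ ^ q) atTop
            (𝓝 (‖F (pt x (ε • e))‖ₑ ^ q)) := (hE.tendsto _).comp (hFat.tendsto.comp h1)
        apply ENNReal.Tendsto.const_mul h4
        right
        exact ne_top_of_le_ne_top (ENNReal.natCast_ne_top k) (hGk x)
    _ ≤ liminf (fun j => ∫⁻ x, G x * ‖F (pt x (η j • e + ε • e))‖ₑ ^ q) atTop := by
        apply lintegral_liminf_le
        intro j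
        apply hGm.mul
        have hm : η j • e + ε • e ∈ Γ := by
          have := cone_mem hconv hcone (hηe j) hεe (t := 1) (by norm_num)
          simpa using this
        exact (measurable_slice hFc hm).measurable.enorm.pow_const q
    _ ≤ limsup (fun j => ∫⁻ x, G x * ‖F (pt x (η j • e + ε • e))‖ₑ ^ q) atTop :=
        liminf_le_limsup
    _ ≤ limsup (fun j => c * ∫⁻ θ in Ioc 0 (2 * π), L j θ) atTop :=
        limsup_le_limsup (Eventually.of_forall hj)
    _ = c * limsup (fun j => ∫⁻ θ in Ioc 0 (2 * π), L j θ) atTop :=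
        ENNReal.limsup_const_mul_of_ne_top hctop
    _ ≤ c * ∫⁻ θ in Ioc 0 (2 * π), ∫⁻ x, G x * ‖f (x + tau θ • (ε • e))‖ₑ ^ q := by
        gcongr
        calc limsup (fun j => ∫⁻ θ in Ioc 0 (2 * π), L j θ) atTop
            ≤ ∫⁻ θ in Ioc 0 (2 * π), limsup (fun j => L j θ) atTop := by
              apply limsup_lintegral_le (fun _ => ν univ + k * C) hLm
                (fun j => Eventually.of_forall fun θ => hLb j θ)
              rw [lintegral_const]
              apply ENNReal.mul_ne_top (ENNReal.add_ne_top.mpr ⟨measure_ne_top _ _, hNC⟩)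
              rw [Measure.restrict_apply_univ, Real.volume_Ioc]
              exact ENNReal.ofReal_ne_top
          _ ≤ _ := lintegral_mono fun θ => hlimsup θ


theorem tri {p : ℝ} (hp0 : 0 < p) (hp1 : p ≤ 1) (a b c : ℂ) :
    ‖a - c‖ₑ ^ p ≤ ‖a - b‖ₑ ^ p + ‖b - c‖ₑ ^ p := by
  calc ‖a - c‖ₑ ^ p ≤ (‖a - b‖ₑ + ‖b - c‖ₑ) ^ p := by
        apply ENNReal.rpow_le_rpow _ hp0.le
        have : a - c = (a - b) + (b - c) := by ring
        rw [this]
        exact enorm_add_le _ _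
    _ ≤ _ := ENNReal.rpow_add_le_add_rpow _ _ hp0.le hp1

theorem tri3 {α : Type*} [MeasurableSpace α] (μ : Measure α) {p : ℝ} (hp0 : 0 < p) (hp1 : p ≤ 1)
    (a b c d : α → ℂ) (ha : AEMeasurable a μ) (hb : AEMeasurable b μ) (hc : AEMeasurable c μ) :
    ∫⁻ x, ‖a x - d x‖ₑ ^ p ∂μ ≤ ∫⁻ x, ‖a x - b x‖ₑ ^ p ∂μ + ∫⁻ x, ‖b x - c x‖ₑ ^ p ∂μ +
      ∫⁻ x, ‖c x - d x‖ₑ ^ p ∂μ := by
  have m1 : AEMeasurable (fun x => ‖a x - b x‖ₑ ^ p) μ := (ha.sub hb).enorm.pow_const p
  have m2 : AEMeasurable (fun x => ‖b x - c x‖ₑ ^ p) μ := (hb.sub hc).enorm.pow_const p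
  have m3 : AEMeasurable (fun x => ‖a x - b x‖ₑ ^ p + ‖b x - c x‖ₑ ^ p) μ := m1.add m2
  rw [← lintegral_add_left' m1, ← lintegral_add_left' m3]
  apply lintegral_mono
  intro x
  exact (tri hp0 hp1 (a x) (c x) (d x)).trans (add_le_add (tri hp0 hp1 (a x) (b x) (c x)) le_rfl)

theorem main {Γ : Set (Fin n → ℝ)} (hΓo : IsOpen Γ) (hconv : Convex ℝ Γ)
    (hcone : ∀ y ∈ Γ, ∀ t : ℝ, 0 < t → t • y ∈ Γ) {F : (Fin n → ℂ) → ℂ}
    (hF : DifferentiableOn ℂ F (tube Γ)) {p : ℝ} (hp0 : 0 < p) (hp1 : p ≤ 1)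
    (C : ℝ≥0∞) (hC : C ≠ ∞) (hb : ∀ y ∈ Γ, ∫⁻ x, ‖F (pt x y)‖ₑ ^ p ≤ C)
    {e : Fin n → ℝ} (he : e ∈ Γ) (f : (Fin n → ℝ) → ℂ)
    (hf : ∀ᵐ x, Tendsto (fun t : ℝ => F (pt x (t • e))) (𝓝[>] 0) (𝓝 (f x))) :
    Tendsto (fun y => ∫⁻ x, ‖F (pt x y) - f x‖ₑ ^ p) (𝓝[Γ] 0) (𝓝 0) := by
  have hFc : ContinuousOn F (tube Γ) := hF.continuousOn
  have hq : 0 < p / 2 := by positivity
  have hsq : ∀ z : ℂ, (‖z‖ₑ ^ (p / 2)) ^ 2 = ‖z‖ₑ ^ p := by
    intro z
    rw [← ENNReal.rpow_natCast, ← ENNReal.rpow_mul]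
    congr 1
    push_cast
    ring
  have hadd : ∀ {a b : Fin n → ℝ}, a ∈ Γ → b ∈ Γ → a + b ∈ Γ := by
    intro a b ha hb'
    have := cone_mem hconv hcone ha hb' (t := 1) (by norm_num)
    simpa using this
  -- monotonicity
  have hM : ∀ (G : (Fin n → ℂ) → ℂ), DifferentiableOn ℂ G (tube Γ) → ∀ D : ℝ≥0∞, D ≠ ∞ →
      (∀ y ∈ Γ, ∫⁻ x, ‖G (pt x y)‖ₑ ^ p ≤ D) → ∀ y0 ∈ Γ, ∀ y1 ∈ Γ,
      ∫⁻ x, ‖G (pt x (y0 + y1))‖ₑ ^ p ≤ ∫⁻ x, ‖G (pt x y0)‖ₑ ^ p := by
    intro G hG D hD hbG y0 h0 y1 h1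
    have h := mono hΓo hconv hcone hG hq D hD (by simpa only [hsq] using hbG) h0 h1
    simpa only [hsq] using h
  let η : ℕ → ℝ := fun j => 1 / ((j : ℝ) + 1)
  have hη0 : ∀ j, 0 < η j := fun j => by simp only [η]; positivity
  have hηlim : Tendsto η atTop (𝓝 0) := tendsto_one_div_add_atTop_nhds_zero_nat
  have hηlim' : Tendsto η atTop (𝓝[>] 0) :=
    tendsto_nhdsWithin_iff.mpr ⟨hηlim, Eventually.of_forall hη0⟩
  have hse : ∀ {s : ℝ}, 0 < s → s • e ∈ Γ := fun hs => hcone _ he _ hs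
  have hslm : ∀ {y : Fin n → ℝ}, y ∈ Γ → Measurable (fun x => F (pt x y)) :=
    fun hy => (measurable_slice hFc hy).measurable
  have hfm : AEMeasurable f := by
    apply aemeasurable_of_tendsto_metrizable_ae (atTop : Filter ℕ)
      (f := fun j x => F (pt x (η j • e)))
    · exact fun j => (hslm (hse (hη0 j))).aemeasurable
    · filter_upwards [hf] with x hx
      exact hx.comp hηlim'
  have hE : Continuous (fun z : ℂ => ‖z‖ₑ ^ p) :=
    (ENNReal.continuous_rpow_const).comp continuous_enorm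
  have hffin : ∫⁻ x, ‖f x‖ₑ ^ p ≠ ∞ := by
    apply ne_top_of_le_ne_top hC
    calc ∫⁻ x, ‖f x‖ₑ ^ p = ∫⁻ x, liminf (fun j => ‖F (pt x (η j • e))‖ₑ ^ p) atTop := by
          apply lintegral_congr_ae
          filter_upwards [hf] with x hx
          exact (((hE.tendsto _).comp (hx.comp hηlim')).liminf_eq).symm
      _ ≤ liminf (fun j => ∫⁻ x, ‖F (pt x (η j • e))‖ₑ ^ p) atTop :=
          lintegral_liminf_le fun j => (hslm (hse (hη0 j))).enorm.pow_const p
      _ ≤ liminf (fun _ : ℕ => C) atTop :=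
          liminf_le_liminf (Eventually.of_forall fun j => hb _ (hse (hη0 j)))
      _ = C := by simp
  let κ : ℝ → ℝ≥0∞ := fun ε => ∫⁻ x, ‖F (pt x (ε • e)) - f x‖ₑ ^ p
  have hκ : Tendsto (fun j => κ (η j)) atTop (𝓝 0) := by
    apply BL volume (fun j x => F (pt x (η j • e))) f hp0 hp1
      (fun j => (hslm (hse (hη0 j))).aemeasurable) hfm
    · filter_upwards [hf] with x hx
      exact hx.comp hηlim'
    · exact hffin
    · intro j
      have h := radial_bound hΓo hconv hcone hF hq C hC (by simpa only [hsq] using hb) he f hf (hη0 j)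
      simpa only [hsq] using h
  have hD : ∀ ε : ℝ, 0 < ε → ∀ y : ℕ → Fin n → ℝ, (∀ j, y j ∈ Γ) → Tendsto y atTop (𝓝 0) →
      Tendsto (fun j => ∫⁻ x, ‖F (pt x (ε • e + y j)) - F (pt x (ε • e))‖ₑ ^ p) atTop (𝓝 0) := by
    intro ε hε y hy hylim
    apply BL volume (fun j x => F (pt x (ε • e + y j))) (fun x => F (pt x (ε • e))) hp0 hp1
      (fun j => (hslm (hadd (hse hε) (hy j))).aemeasurable) (hslm (hse hε)).aemeasurable
    · refine Eventually.of_forall fun x => ?_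
      have hFat : ContinuousAt F (pt x (ε • e)) :=
        hFc.continuousAt ((isOpen_tube hΓo).mem_nhds (pt_mem (hse hε)))
      have h2 : Continuous (fun v : Fin n → ℝ => pt x (ε • e + v)) :=
        continuous_pt.comp (by fun_prop : Continuous fun v : Fin n → ℝ => (x, ε • e + v))
      have h3 := (h2.tendsto 0).comp hylim
      simp only [add_zero] at h3
      exact hFat.tendsto.comp h3
    · exact ne_top_of_le_ne_top hC (hb _ (hse hε))
    · exact fun j => hM F hF C hC hb _ (hse hε) _ (hy j)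
  have hG : ∀ ε : ℝ, 0 < ε → ∀ y ∈ Γ,
      ∫⁻ x, ‖F (pt x y) - F (pt x (y + ε • e))‖ₑ ^ p ≤ κ ε := by
    intro ε hε y hy
    let sh : (Fin n → ℂ) → (Fin n → ℂ) := fun z j => z j + ((ε * e j : ℝ) : ℂ) * Complex.I
    have hsh : ∀ x v : Fin n → ℝ, sh (pt x v) = pt x (v + ε • e) := by
      intro x v
      ext j
      simp only [sh, pt, Pi.add_apply, Pi.smul_apply, smul_eq_mul]
      push_cast
      ring
    have hshd : Differentiable ℂ sh := by
      rw [differentiable_pi]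
      intro j
      simp only [sh]
      fun_prop
    have hmaps : MapsTo sh (tube Γ) (tube Γ) := by
      intro z hz
      have hz' : (fun j => (z j).im) ∈ Γ := hz
      show (fun j => (sh z j).im) ∈ Γ
      have e1 : (fun j => (sh z j).im) = (fun j => (z j).im) + ε • e := by
        ext j
        simp [sh]
      rw [e1]
      exact hadd hz' (hse hε)
    have hGd : DifferentiableOn ℂ (fun z => F z - F (sh z)) (tube Γ) :=
      hF.sub (hF.comp hshd.differentiableOn hmaps)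
    have hGb : ∀ v ∈ Γ, ∫⁻ x, ‖(fun z => F z - F (sh z)) (pt x v)‖ₑ ^ p ≤ C + C := by
      intro v hv
      have hv2 : v + ε • e ∈ Γ := hadd hv (hse hε)
      simp only [hsh]
      calc ∫⁻ x, ‖F (pt x v) - F (pt x (v + ε • e))‖ₑ ^ p
          ≤ ∫⁻ x, (‖F (pt x v)‖ₑ ^ p + ‖F (pt x (v + ε • e))‖ₑ ^ p) := by
            apply lintegral_mono
            intro x
            have := tri hp0 hp1 (F (pt x v)) 0 (F (pt x (v + ε • e)))
            simpa using this
        _ = (∫⁻ x, ‖F (pt x v)‖ₑ ^ p) + ∫⁻ x, ‖F (pt x (v + ε • e))‖ₑ ^ p := by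
            rw [lintegral_add_left ((hslm hv).enorm.pow_const p)]
        _ ≤ C + C := add_le_add (hb _ hv) (hb _ hv2)
    have hev : ∀ᶠ j in atTop, y - η j • e ∈ Γ := by
      have hc : Continuous (fun t : ℝ => y - t • e) := by fun_prop
      have h1 : Tendsto (fun j => y - η j • e) atTop (𝓝 y) := by
        have := (hc.tendsto 0).comp hηlim
        simpa [Function.comp_def] using this
      exact h1 (hΓo.mem_nhds hy)
    have hlim : Tendsto (fun j => κ (η j) + κ ε +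
        ∫⁻ x, ‖F (pt x (ε • e + η j • e)) - F (pt x (ε • e))‖ₑ ^ p) atTop (𝓝 (0 + κ ε + 0)) := by
      apply Tendsto.add (hκ.add tendsto_const_nhds)
      apply hD ε hε (fun j => η j • e) (fun j => hse (hη0 j))
      have hc : Continuous (fun t : ℝ => t • e) := by fun_prop
      have := (hc.tendsto 0).comp hηlim
      simpa [Function.comp_def] using this
    rw [zero_add, add_zero] at hlim
    apply ge_of_tendsto hlim
    filter_upwards [hev] with j hj
    have hηe := hse (hη0 j)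
    have h1 := hM _ hGd (C + C) (ENNReal.add_ne_top.mpr ⟨hC, hC⟩) hGb (η j • e) hηe _ hj
    have e2 : η j • e + (y - η j • e) = y := by abel
    rw [e2] at h1
    simp only [hsh] at h1
    refine h1.trans ?_
    have h3 := tri3 volume hp0 hp1 (fun x => F (pt x (η j • e))) f (fun x => F (pt x (ε • e)))
      (fun x => F (pt x (η j • e + ε • e))) (hslm hηe).aemeasurable hfm
      (hslm (hse hε)).aemeasurable
    refine h3.trans (le_of_eq ?_)
    congr 1
    · congr 1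
      apply lintegral_congr
      intro x
      rw [← enorm_neg, neg_sub]
    · apply lintegral_congr
      intro x
      rw [← enorm_neg, neg_sub, add_comm (η j • e)]
  apply tendsto_of_seq_tendsto
  intro y hy
  rw [tendsto_nhdsWithin_iff] at hy
  obtain ⟨hylim, hyΓ⟩ := hy
  rw [ENNReal.tendsto_nhds_zero]
  intro δ hδ
  have hδ2 : 0 < δ / 2 := ENNReal.half_pos hδ.ne'
  have hδ4 : 0 < δ / 2 / 2 := ENNReal.half_pos hδ2.ne'
  obtain ⟨i, hi⟩ := ((ENNReal.tendsto_nhds_zero.mp hκ) _ hδ4).exists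
  set ε := η i with hεdef
  have hε : 0 < ε := hη0 i
  -- replace y by a sequence that stays in Γ
  let y' : ℕ → Fin n → ℝ := fun j => by
    classical
    exact if y j ∈ Γ then y j else η j • e
  have hy'Γ : ∀ j, y' j ∈ Γ := by
    intro j
    simp only [y']
    split_ifs with h
    · exact h
    · exact hse (hη0 j)
  have hyy' : ∀ᶠ j in atTop, y' j = y j := by
    filter_upwards [hyΓ] with j hj
    simp only [y']
    rw [if_pos hj]
  have hy'lim : Tendsto y' atTop (𝓝 0) :=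
    hylim.congr' (hyy'.mono fun j hj => hj.symm)
  have hDlim := (ENNReal.tendsto_nhds_zero.mp (hD ε hε y' hy'Γ hy'lim)) _ hδ2
  filter_upwards [hDlim, hyy'] with j hj hjy
  show ∫⁻ x, ‖F (pt x (y j)) - f x‖ₑ ^ p ≤ δ
  rw [← hjy]
  have h3 := tri3 volume hp0 hp1 (fun x => F (pt x (y' j))) (fun x => F (pt x (y' j + ε • e)))
    (fun x => F (pt x (ε • e))) f (hslm (hy'Γ j)).aemeasurable
    (hslm (hadd (hy'Γ j) (hse hε))).aemeasurable (hslm (hse hε)).aemeasurable
  refine h3.trans ?_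
  have h4 := hG ε hε (y' j) (hy'Γ j)
  have h5 : ∫⁻ x, ‖F (pt x (y' j + ε • e)) - F (pt x (ε • e))‖ₑ ^ p ≤ δ / 2 := by
    rw [add_comm (y' j)]
    exact hj
  calc _ ≤ δ / 2 / 2 + δ / 2 + δ / 2 / 2 := by
        gcongr
        exact h4.trans hi
    _ = δ := by
        rw [add_right_comm, ENNReal.add_halves, ENNReal.add_halves]


/-- Every point of a regular cone lies in a proper regular subcone. -/
theorem exists_subcone {Γ : Set (Fin n → ℝ)} (hΓ : IsRegularCone Γ) {e : Fin n → ℝ} (he : e ∈ Γ) :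
    ∃ Γ₀, IsProperSubcone Γ₀ Γ ∧ e ∈ Γ₀ := by
  by_cases he0 : e = 0
  · -- then the whole space is a single point
    subst he0
    have huniv : ∀ v : Fin n → ℝ, v ∈ Γ := by
      intro v
      obtain ⟨r, hr, hball⟩ := Metric.isOpen_iff.mp hΓ.isOpen 0 he
      have hpos : 0 < ‖v‖ + 1 := by positivity
      have h1 : (r / 2 / (‖v‖ + 1)) • v ∈ Γ := by
        apply hball
        rw [mem_ball_zero_iff, norm_smul, Real.norm_of_nonneg (by positivity)]
        have : r / 2 / (‖v‖ + 1) * ‖v‖ ≤ r / 2 := by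
          rw [div_mul_eq_mul_div, div_le_iff₀ hpos]
          nlinarith [norm_nonneg v]
        linarith
      have h2 := hΓ.smul_mem _ h1 ((r / 2 / (‖v‖ + 1))⁻¹) (by positivity)
      rwa [smul_smul, inv_mul_cancel₀ (by positivity), one_smul] at h2
    have hsub : ∀ v : Fin n → ℝ, v = 0 := by
      intro v
      by_contra hv
      exact hΓ.no_line ⟨0, v, hv, fun t => subset_closure (huniv _)⟩
    refine ⟨Γ, ⟨hΓ, Subset.rfl, ?_⟩, he⟩
    intro v _
    rw [hsub v]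
    exact Or.inl he
  · have hnorm : 0 < ‖e‖ := norm_pos_iff.mpr he0
    obtain ⟨r', hr', hball'⟩ := Metric.nhds_basis_closedBall.mem_iff.mp (hΓ.isOpen.mem_nhds he)
    set r := min r' (‖e‖ / 2) with hrdef
    have hr : 0 < r := lt_min hr' (by positivity)
    have hre : r ≤ ‖e‖ / 2 := min_le_right _ _
    have hball : closedBall e r ⊆ Γ := (closedBall_subset_closedBall (min_le_left _ _)).trans hball'
    let Γ₀ : Set (Fin n → ℝ) := {y | ∃ t : ℝ, 0 < t ∧ ‖y - t • e‖ < r * t}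
    have hmemΓ : ∀ y : Fin n → ℝ, ∀ t : ℝ, 0 < t → ‖y - t • e‖ ≤ r * t → y ∈ Γ := by
      intro y t ht hy
      have h1 : t⁻¹ • y ∈ closedBall e r := by
        rw [mem_closedBall, dist_eq_norm]
        have : t⁻¹ • y - e = t⁻¹ • (y - t • e) := by
          rw [smul_sub, smul_smul, inv_mul_cancel₀ ht.ne', one_smul]
        rw [this, norm_smul, Real.norm_of_nonneg (by positivity), inv_mul_le_iff₀ ht]
        linarith
      have h2 := hΓ.smul_mem _ (hball h1) t ht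
      rwa [smul_smul, mul_inv_cancel₀ ht.ne', one_smul] at h2
    have hsub : Γ₀ ⊆ Γ := by
      rintro y ⟨t, ht, hy⟩
      exact hmemΓ y t ht hy.le
    have heΓ₀ : e ∈ Γ₀ := ⟨1, one_pos, by simpa using hr⟩
    refine ⟨Γ₀, ⟨⟨⟨e, heΓ₀⟩, ?_, ?_, ?_, ?_⟩, hsub, ?_⟩, heΓ₀⟩
    · -- open
      have : Γ₀ = ⋃ t ∈ Ioi (0:ℝ), {y | ‖y - t • e‖ < r * t} := by
        ext y
        simp [Γ₀]
      rw [this]
      apply isOpen_biUnion
      intro t _
      exact isOpen_lt (by fun_prop) continuous_const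
    · -- convex
      rintro y ⟨t, ht, hy⟩ z ⟨s, hs, hz⟩ a b ha hb hab
      rcases ha.eq_or_lt with rfl | ha
      · have hb1 : b = 1 := by linarith
        subst hb1
        exact ⟨s, hs, by simpa using hz⟩
      refine ⟨a * t + b * s, by positivity, ?_⟩
      have e1 : a • y + b • z - (a * t + b * s) • e = a • (y - t • e) + b • (z - s • e) := by
        rw [smul_sub, smul_sub, smul_smul, smul_smul, add_smul]
        abel
      rw [e1]
      calc ‖a • (y - t • e) + b • (z - s • e)‖ ≤ ‖a • (y - t • e)‖ + ‖b • (z - s • e)‖ :=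
            norm_add_le _ _
        _ = a * ‖y - t • e‖ + b * ‖z - s • e‖ := by
            rw [norm_smul, norm_smul, Real.norm_of_nonneg ha.le, Real.norm_of_nonneg hb]
        _ < r * (a * t + b * s) := by
            have h1 : a * ‖y - t • e‖ < a * (r * t) := mul_lt_mul_of_pos_left hy ha
            have h2 : b * ‖z - s • e‖ ≤ b * (r * s) := mul_le_mul_of_nonneg_left hz.le hb
            nlinarith
    · -- cone
      rintro y ⟨t, ht, hy⟩ s hs
      refine ⟨s * t, by positivity, ?_⟩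
      have e1 : s • y - (s * t) • e = s • (y - t • e) := by
        rw [smul_sub, smul_smul]
      rw [e1, norm_smul, Real.norm_of_nonneg hs.le]
      have := mul_lt_mul_of_pos_left hy hs
      linarith
    · -- no line
      rintro ⟨a, v, hv, h⟩
      exact hΓ.no_line ⟨a, v, hv, fun t => closure_mono hsub (h t)⟩
    · -- closure
      intro y hy
      obtain ⟨u, hu, hulim⟩ := mem_closure_iff_seq_limit.mp hy
      choose t ht0 ht using hu
      have htb : ∀ k, t k ≤ 2 * ‖u k‖ / ‖e‖ := by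
        intro k
        rw [le_div_iff₀ hnorm]
        have h1 : ‖t k • e‖ ≤ ‖u k‖ + ‖u k - t k • e‖ := by
          have : t k • e = u k - (u k - t k • e) := by abel
          calc ‖t k • e‖ = ‖u k - (u k - t k • e)‖ := by rw [← this]
            _ ≤ _ := norm_sub_le _ _
        rw [norm_smul, Real.norm_of_nonneg (ht0 k).le] at h1
        have h2 := ht k
        have h3 : r * t k ≤ ‖e‖ / 2 * t k := mul_le_mul_of_nonneg_right hre (ht0 k).le
        nlinarith
      obtain ⟨B, hB⟩ := hulim.norm.bddAbove_range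
      have hBk : ∀ k, ‖u k‖ ≤ B := fun k => hB ⟨k, rfl⟩
      have htI : ∀ k, t k ∈ Icc (0:ℝ) (2 * B / ‖e‖) := by
        intro k
        refine ⟨(ht0 k).le, (htb k).trans ?_⟩
        gcongr
        exact hBk k
      obtain ⟨t0, ht0mem, φ, hφ, hlim⟩ := isCompact_Icc.tendsto_subseq htI
      have hul : Tendsto (u ∘ φ) atTop (𝓝 y) := hulim.comp hφ.tendsto_atTop
      have h1 : Tendsto (fun k => ‖u (φ k) - t (φ k) • e‖) atTop (𝓝 ‖y - t0 • e‖) :=
        (hul.sub (hlim.smul_const e)).norm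
      have h2 : Tendsto (fun k => r * t (φ k)) atTop (𝓝 (r * t0)) := hlim.const_mul r
      have h3 : ‖y - t0 • e‖ ≤ r * t0 :=
        le_of_tendsto_of_tendsto' h1 h2 fun k => (ht (φ k)).le
      rcases ht0mem.1.eq_or_lt with h0 | h0
      · right
        rw [← h0] at h3
        simp at h3
        exact h3
      · left
        exact hmemΓ y t0 h0 h3

/-- **Unrestricted boundary convergence in `H^p(T_Γ)`, `0 < p < 1`.** -/
theorem result (n : ℕ) (Γ : Set (Fin n → ℝ)) (hΓ : IsRegularCone Γ) (p : ℝ) (hp0 : 0 < p)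
    (hp1 : p < 1) (F : (Fin n → ℂ) → ℂ) (hF : F ∈ Hp p Γ) (f : (Fin n → ℝ) → ℂ)
    (hf : IsBoundaryFunction Γ F f) :
    Tendsto (fun y => ∫⁻ x : Fin n → ℝ, ‖F (pt x y) - f x‖ₑ ^ p) (𝓝[Γ] 0) (𝓝 0) := by
  obtain ⟨e, he⟩ := hΓ.nonempty
  obtain ⟨Γ₀, hΓ₀, heΓ₀⟩ := exists_subcone hΓ he
  obtain ⟨hFd, hFb⟩ := hF
  refine main hΓ.isOpen hΓ.convex hΓ.smul_mem hFd hp0 hp1.le
    (⨆ y ∈ Γ, ∫⁻ x : Fin n → ℝ, ‖F (pt x y)‖ₑ ^ p) hFb.ne ?_ he f ?_
  · intro y hy
    exact le_iSup₂ (f := fun y (_ : y ∈ Γ) => ∫⁻ x : Fin n → ℝ, ‖F (pt x y)‖ₑ ^ p) y hy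
  · filter_upwards [hf Γ₀ hΓ₀] with x hx
    apply hx.comp
    rw [tendsto_nhdsWithin_iff]
    constructor
    · have hc : Continuous (fun t : ℝ => t • e) := by fun_prop
      have := hc.tendsto 0
      rw [zero_smul] at this
      exact this.mono_left nhdsWithin_le_nhds
    · filter_upwards [self_mem_nhdsWithin] with t ht
      exact hΓ₀.1.smul_mem _ heΓ₀ t ht

end Pool.Agent.Results.MP_48685d_an.Unrestricted
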